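import Pool.Agent.P.MP_a66f6f_co.Pos.KP
import Pool.Agent.P.MP_a66f6f_co.Ped.Dens

/-!
Random cubes of pairs inside a level: most sets are sensitive points of an increasing intersecting
family whose density grows almost linearly.
-/

namespace Pool.Agent.P.MP_a66f6f_co.Pos

open Finset Ped
open scoped symmDiff

variable {m : ℕ} {g : Finset (Fin m) → Prop}

/-- the labels chosen from the pairs `t, t + j` -/
def qq (j : ℕ) (T : Finset ℕ) : Finset ℕ := (range j).image fun t => if t ∈ T then t + j else t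

theorem mem_qq {j : ℕ} {T : Finset ℕ} {x : ℕ} :
    x ∈ qq j T ↔ (x < j ∧ x ∉ T) ∨ (j ≤ x ∧ x < 2 * j ∧ x - j ∈ T) := by
  simp only [qq, mem_image, mem_range]
  constructor
  · rintro ⟨t, h1, rfl⟩
    split_ifs with c
    · exact Or.inr ⟨by omega, by omega, by simpa using c⟩
    · exact Or.inl ⟨h1, c⟩
  · rintro (⟨h1, h2⟩ | ⟨h1, h2, h3⟩)
    · exact ⟨x, h1, if_neg h2⟩
    · exact ⟨x - j, by omega, by rw [if_pos h3]; omega⟩

theorem card_qq (j : ℕ) (T : Finset ℕ) : (qq j T).card = j := by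
  rw [qq, card_image_of_injOn, card_range]
  intro x hx y hy e
  simp only [coe_range, Set.mem_Iio] at hx hy
  dsimp only at e
  split_ifs at e <;> omega

theorem qq_sub {j : ℕ} (h : 2 * j ≤ m) (T : Finset ℕ) : qq j T ⊆ range m := fun x hx => by
  rw [mem_qq] at hx
  rw [mem_range]
  omega

theorem qq_disj (j : ℕ) (T : Finset ℕ) : Disjoint (qq j T) (qq j (range j \ T)) :=
  disjoint_left.2 fun x c1 c2 => by
    simp only [mem_qq, mem_sdiff, mem_range] at c1 c2
    rcases c1 with c1 | c1 <;> rcases c2 with c2 | c2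
    · exact c2.2 ⟨c1.1, c1.2⟩
    · omega
    · omega
    · exact c2.2.2.2 c1.2.2

/-- the label of the pair `t` that is not chosen -/
def ot (j : ℕ) (T : Finset ℕ) (t : ℕ) : ℕ := if t ∈ T then t else t + j

/-- the label of the pair `t` that is chosen -/
def it (j : ℕ) (T : Finset ℕ) (t : ℕ) : ℕ := if t ∈ T then t + j else t

theorem ot_mem {j t : ℕ} (T : Finset ℕ) (ht : t < j) : ot j T t ∈ qq j (range j \ T) := by
  simp only [mem_qq, mem_sdiff, mem_range, ot]
  split_ifs with c
  · exact Or.inl ⟨ht, fun d => d.2 c⟩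
  · exact Or.inr ⟨by omega, by omega, by omega, by simpa using c⟩

theorem ot_not {j t : ℕ} (T : Finset ℕ) (ht : t < j) : ot j T t ∉ qq j T :=
  fun c => disjoint_left.1 (qq_disj j T) c (ot_mem T ht)

theorem flip_sub {j t : ℕ} (T : Finset ℕ) :
    qq j (T ∆ {t}) ⊆ insert (ot j T t) (qq j T) := fun x hx => by
  simp only [mem_qq, mem_symmDiff, mem_singleton, mem_insert, ot] at hx ⊢
  by_cases c : t ∈ T <;> simp only [c, if_true, if_false] <;> rcases hx with hx | hx
  · by_cases d : x = t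
    · exact Or.inl d
    · exact Or.inr (Or.inl ⟨hx.1, fun d' => hx.2 (Or.inl ⟨d', d⟩)⟩)
  · refine Or.inr (Or.inr ⟨hx.1, hx.2.1, hx.2.2.elim (fun d => d.1) fun d => d.1 ▸ c⟩)
  · refine Or.inr (Or.inl ⟨hx.1, fun d' => hx.2 (Or.inl ⟨d', fun d => c (d ▸ d')⟩)⟩)
  · rcases hx.2.2 with d | d
    · exact Or.inr (Or.inr ⟨hx.1, hx.2.1, d.1⟩)
    · exact Or.inl (by omega)

theorem ot_lt {j t : ℕ} (e : 2 * j ≤ m) (T : Finset ℕ) (ht : t < j) : ot j T t < m := by
  unfold ot
  split_ifs <;> omega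

theorem sub_flip {j t : ℕ} (T : Finset ℕ) :
    (qq j T).erase (it j T t) ⊆ qq j (T ∆ {t}) := fun x hx => by
  simp only [mem_qq, mem_symmDiff, mem_singleton, mem_erase, it] at hx ⊢
  obtain ⟨h1, hx⟩ := hx
  by_cases c : t ∈ T <;> simp only [c, if_true, if_false] at h1 <;> rcases hx with hx | hx
  · exact Or.inl ⟨hx.1, fun d => d.elim (fun d => hx.2 d.1) fun d => hx.2 (d.1 ▸ c)⟩
  · exact Or.inr ⟨hx.1, hx.2.1, Or.inl ⟨hx.2.2, by omega⟩⟩
  · exact Or.inl ⟨hx.1, fun d => d.elim (fun d => hx.2 d.1) fun d => h1 d.1⟩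
  · exact Or.inr ⟨hx.1, hx.2.1, Or.inl ⟨hx.2.2, fun d => c (d ▸ hx.2.2)⟩⟩

theorem flip_flip (T : Finset ℕ) (t : ℕ) : (T ∆ {t}) ∆ {t} = T := symmDiff_symmDiff_cancel_right _ _

theorem pull_insert (σ : Equiv.Perm (Fin m)) (X : Finset ℕ) (x : Fin m) :
    pull σ (insert x.val X) = insert (σ.symm x) (pull σ X) := by
  ext i
  simp only [pull, mem_filter, mem_univ, true_and, mem_insert]
  refine or_congr_left ?_
  rw [Equiv.eq_symm_apply, Fin.ext_iff]

theorem pull_erase (σ : Equiv.Perm (Fin m)) (X : Finset ℕ) (x : Fin m) :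
    pull σ (X.erase x.val) = (pull σ X).erase (σ.symm x) := by
  ext i
  simp only [pull, mem_filter, mem_univ, true_and, mem_erase]
  refine and_congr_left fun _ => not_congr ?_
  rw [Equiv.eq_symm_apply, Fin.ext_iff]

open Classical in
/-- the number of labellings in which adding the label `x` is decisive -/
theorem cnt_piv (h : Up g) {X : Finset ℕ} {x : ℕ} (hX : X ⊆ range m) (hx : x < m) (c : x ∉ X) :
    ∑ σ : Equiv.Perm (Fin m), (if ¬ g (pull σ X) ∧ g (pull σ (insert x X)) then (1 : ℝ) else 0) =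
      fac m * (den g (X.card + 1) - den g X.card) := by
  rw [mul_sub, ← cnt_eq g hX, ← card_insert_of_notMem c,
    ← cnt_eq g (insert_subset (mem_range.2 hx) hX), cnt, cnt, ← sum_sub_distrib]
  refine sum_congr rfl fun σ _ => ?_
  have := h _ _ (pull_mono σ (subset_insert x X))
  by_cases c1 : g (pull σ X) <;> by_cases c2 : g (pull σ (insert x X)) <;> simp_all

open Classical in
theorem half (hi : ∀ X Y, g X → g Y → ¬ Disjoint X Y) (j : ℕ) (σ : Equiv.Perm (Fin m)) :
    2 * ∑ T ∈ (range j).powerset, (if g (pull σ (qq j T)) then (1 : ℝ) else 0) ≤ 2 ^ j := by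
  have a1 : ∑ T ∈ (range j).powerset, (if g (pull σ (qq j (range j \ T))) then (1 : ℝ) else 0) =
      ∑ T ∈ (range j).powerset, (if g (pull σ (qq j T)) then (1 : ℝ) else 0) :=
    sum_bij' (fun Y _ => range j \ Y) (fun Y _ => range j \ Y) (by simp) (by simp)
      (fun Y hY => Finset.sdiff_sdiff_eq_self (mem_powerset.1 hY))
      (fun Y hY => Finset.sdiff_sdiff_eq_self (mem_powerset.1 hY)) fun Y _ => rfl
  rw [two_mul]
  nth_rewrite 1 [← a1]
  rw [← sum_add_distrib]
  refine (sum_le_card_nsmul _ _ 1 fun T _ => ?_).trans (by simp)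
  have := fun c1 c2 => hi _ _ c1 c2 (pull_disj σ (qq_disj j T))
  split_ifs with c1 c2
  · exact absurd (this c2 c1) id
  all_goals norm_num

theorem ph_eq (h : ℕ) : ph h = h + if h = 0 then 0 else 1 := by
  unfold ph
  split_ifs with c
  · simp [c]
  · rfl

open Classical in
theorem hh_ne {V T : Finset ℕ} {A : Finset ℕ → Prop} (h : hh V A T ≠ 0) :
    ∃ v ∈ V, ¬ A (T ∆ {v}) := by
  obtain ⟨t, ht⟩ := card_pos.1 (Nat.pos_of_ne_zero h)
  exact ⟨t, mem_filter.1 ht⟩

open Classical in
theorem hh_le {V T : Finset ℕ} {A : Finset ℕ → Prop} (B : ℕ → Prop) [DecidablePred B]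
    (h : ∀ v ∈ V, ¬ A (T ∆ {v}) → B v) : (hh V A T : ℝ) ≤ ∑ v ∈ V, if B v then 1 else 0 := by
  rw [hh, card_eq_sum_ones, Nat.cast_sum, sum_filter]
  refine sum_le_sum fun t ht => ?_
  rw [Nat.cast_one]
  exact ite_le (h t ht)

/-- members all of whose points are dispensable -/
def Ins1 (g : Finset (Fin m) → Prop) (X : Finset (Fin m)) : Prop := g X ∧ ∀ i, g (X.erase i)

/-- non-members that no single point turns into members -/
def Ins0 (g : Finset (Fin m) → Prop) (X : Finset (Fin m)) : Prop := ¬ g X ∧ ∀ i, ¬ g (insert i X)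

open Classical in
theorem sum_cnt {j : ℕ} (e : 2 * j ≤ m) (P : Finset (Fin m) → Prop) :
    ∑ σ : Equiv.Perm (Fin m), ∑ T ∈ (range j).powerset,
      (if P (pull σ (qq j T)) then (1 : ℝ) else 0) = 2 ^ j * (fac m * den P j) := by
  rw [sum_comm, sum_congr rfl (g := fun _ => fac m * den P j) fun T _ => by
    have := cnt_eq P (qq_sub e T)
    rwa [card_qq] at this]
  simp

open Classical in
theorem s1 (h : Up g) (hi : ∀ X Y, g X → g Y → ¬ Disjoint X Y) {j : ℕ} (e : 2 * j ≤ m) :
    den (Ins1 g) j ≤ j * den g (j + 1) - (j + 1) * den g j := by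
  have hp : (0 : ℝ) < 2 ^ j := by positivity
  have a1 : ∀ σ : Equiv.Perm (Fin m),
      2 * ∑ T ∈ (range j).powerset, (if g (pull σ (qq j T)) then (1 : ℝ) else 0) ≤
      ∑ T ∈ (range j).powerset, (∑ t ∈ range j, (if ¬ g (pull σ (qq j (T ∆ {t}))) ∧
        g (pull σ (insert (ot j (T ∆ {t}) t) (qq j (T ∆ {t})))) then (1 : ℝ) else 0) +
        ((if g (pull σ (qq j T)) then (1 : ℝ) else 0) -
          if Ins1 g (pull σ (qq j T)) then (1 : ℝ) else 0)) := fun σ => by
    have b1 := kp (range j) fun T => g (pull σ (qq j T))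
    have b2 := half hi j σ
    have b3 : 0 ≤ ∑ T ∈ (range j).powerset, (if g (pull σ (qq j T)) then (1 : ℝ) else 0) :=
      sum_nonneg fun _ _ => ite_nn
    rw [card_range] at b1
    refine le_trans (le_of_mul_le_mul_left (le_trans ?_ b1) hp) (sum_le_sum fun T _ => ?_)
    · nlinarith [mul_nonneg b3 (sub_nonneg.2 b2)]
    by_cases c : g (pull σ (qq j T))
    · rw [if_pos c, if_pos c, ph_eq]
      refine add_le_add ?_ ?_
      · refine hh_le _ fun t _ d => ⟨d, h _ _ (pull_mono σ ?_) c⟩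
        have := flip_sub (j := j) (t := t) (T ∆ {t})
        rwa [flip_flip] at this
      · split_ifs with d1 d2 d2
        · norm_num
        · norm_num
        · obtain ⟨t, ht⟩ := hh_ne d1
          rw [mem_range] at ht
          have d3 : it j T t < m := by unfold it; split_ifs <;> omega
          refine absurd (h _ _ ?_ (d2.2 (σ.symm ⟨_, d3⟩))) ht.2
          rw [← pull_erase]
          exact pull_mono σ (sub_flip T)
        · norm_num
    · rw [if_neg c, if_neg c, if_neg fun d : Ins1 g _ => c d.1, sub_zero, add_zero]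
      exact sum_nonneg fun _ _ => ite_nn
  have a2 := sum_le_sum fun σ (_ : σ ∈ univ) => a1 σ
  simp only [sum_add_distrib, sum_sub_distrib] at a2
  rw [← mul_sum, sum_cnt e, sum_cnt e, sum_comm,
    sum_congr rfl (g := fun _ => j * (fac m * (den g (j + 1) - den g j))) fun T _ => by
      rw [sum_comm, sum_congr rfl fun t ht => cnt_piv h (qq_sub e _) (ot_lt e _ (mem_range.1 ht))
        (ot_not _ (mem_range.1 ht))]
      simp [card_qq], sum_const, card_powerset, card_range, nsmul_eq_mul, Nat.cast_pow,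
    Nat.cast_ofNat] at a2
  refine le_of_mul_le_mul_left ?_ (mul_pos hp (fac_pos m))
  linarith

/-- adding the point `i` to `Y` is decisive -/
def pv (g : Finset (Fin m) → Prop) (Y : Finset (Fin m)) (i : Fin m) : Prop := ¬ g Y ∧ g (insert i Y)

open Classical in
/-- the number of decisive points -/
noncomputable def np (g : Finset (Fin m) → Prop) (Y : Finset (Fin m)) : ℕ :=
  (univ.filter (pv g Y)).card

open Classical in
/-- weighted count of labellings in which two given labels are decisive -/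
noncomputable def ww (g : Finset (Fin m) → Prop) (X : Finset ℕ) (x y : Fin m) : ℝ :=
  ∑ σ : Equiv.Perm (Fin m), if pv g (pull σ X) (σ.symm x) ∧ pv g (pull σ X) (σ.symm y)
    then 1 / (np g (pull σ X) : ℝ) else 0

theorem ww_perm {X : Finset ℕ} (π : Equiv.Perm (Fin m)) (h : ∀ i, (π i).val ∈ X ↔ i.val ∈ X)
    (x y : Fin m) : ww g X (π x) (π y) = ww g X x y := by
  unfold ww
  rw [← Equiv.sum_comp (Equiv.mulLeft π)]
  refine sum_congr rfl fun σ _ => ?_
  have : ∀ z, (π * σ).symm (π z) = σ.symm z := fun z => by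
    rw [Equiv.symm_apply_eq, Equiv.Perm.mul_apply, Equiv.apply_symm_apply]
  rw [Equiv.coe_mulLeft, pull_mul h, this, this]

theorem swap_mem {X : Finset ℕ} {a b : Fin m} (ha : a.val ∉ X) (hb : b.val ∉ X) (i : Fin m) :
    (Equiv.swap a b i).val ∈ X ↔ i.val ∈ X := by
  rw [Equiv.swap_apply_def]
  split_ifs with c1 c2
  · rw [c1]; simp [ha, hb]
  · rw [c2]; simp [ha, hb]
  · rfl

theorem ww_eq {X : Finset ℕ} {x x' y y' : Fin m} (h1 : x.val ∉ X) (h2 : x'.val ∉ X)
    (h3 : y.val ∉ X) (h4 : y'.val ∉ X) (c1 : x ≠ x') (c2 : y ≠ y') :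
    ww g X x x' = ww g X y y' := by
  have a1 := ww_perm (g := g) _ (swap_mem h1 h3) x x'
  have a2 : (Equiv.swap x y x').val ∉ X := fun c => h2 ((swap_mem h1 h3 _).1 c)
  have a3 := ww_perm (g := g) _ (swap_mem a2 h4) y (Equiv.swap x y x')
  have a4 : y ≠ Equiv.swap x y x' := fun c => c1 ((Equiv.swap x y).injective (by
    rw [Equiv.swap_apply_left]; exact c))
  rw [Equiv.swap_apply_left] at a1 a3
  rw [Equiv.swap_apply_of_ne_of_ne a4 c2] at a3
  rw [← a1, a3]

open Classical in
theorem ww_sum (X : Finset ℕ) (V : Finset (Fin m)) :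
    ∑ p ∈ V.offDiag, ww g X p.1 p.2 = ∑ σ : Equiv.Perm (Fin m),
      ((V.filter fun x => pv g (pull σ X) (σ.symm x)).card *
        ((V.filter fun x => pv g (pull σ X) (σ.symm x)).card - 1) : ℝ) / np g (pull σ X) := by
  unfold ww
  rw [sum_comm]
  refine sum_congr rfl fun σ _ => ?_
  rw [← sum_filter, sum_const, nsmul_eq_mul, mul_one_div]
  congr 1
  have : V.offDiag.filter (fun p => pv g (pull σ X) (σ.symm p.1) ∧ pv g (pull σ X) (σ.symm p.2)) =
      (V.filter fun x => pv g (pull σ X) (σ.symm x)).offDiag := by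
    ext p
    simp only [mem_filter, mem_offDiag]
    tauto
  rw [this, offDiag_card, Nat.cast_sub (Nat.le_mul_self _)]
  push_cast
  ring

open Classical in
theorem np_ge (σ : Equiv.Perm (Fin m)) (X : Finset ℕ) (V : Finset (Fin m)) :
    (V.filter fun x => pv g (pull σ X) (σ.symm x)).card ≤ np g (pull σ X) :=
  card_le_card_of_injOn σ.symm (fun _ hx => mem_filter.2 ⟨mem_univ _, (mem_filter.1 hx).2⟩)
    σ.symm.injective.injOn

open Classical in
theorem np_eq (σ : Equiv.Perm (Fin m)) (X : Finset ℕ) :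
    ((pull 1 X)ᶜ.filter fun x => pv g (pull σ X) (σ.symm x)).card = np g (pull σ X) := by
  refine le_antisymm (np_ge σ X _) (card_le_card_of_injOn σ (fun i hi => ?_) σ.injective.injOn)
  have a1 := (mem_filter.1 hi).2
  refine mem_filter.2 ⟨mem_compl.2 fun c => ?_, by rwa [Equiv.symm_apply_apply]⟩
  have : i ∈ pull σ X := mem_filter.2 ⟨mem_univ _, (mem_filter.1 c).2⟩
  rw [pv, insert_eq_of_mem this] at a1
  exact a1.1 a1.2

open Classical in
theorem piv_sum (h : Up g) {X : Finset ℕ} (hX : X ⊆ range m) {V : Finset (Fin m)}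
    (hV : ∀ x ∈ V, x.val ∉ X) :
    ∑ σ : Equiv.Perm (Fin m), ((V.filter fun x => pv g (pull σ X) (σ.symm x)).card : ℝ) =
      V.card * (fac m * (den g (X.card + 1) - den g X.card)) := by
  simp only [card_filter]
  push_cast
  rw [sum_comm, ← nsmul_eq_mul, ← sum_const]
  refine sum_congr rfl fun x hx => ?_
  rw [← cnt_piv h hX x.2 (hV x hx)]
  refine sum_congr rfl fun σ _ => ?_
  rw [pull_insert]
  congr

open Classical in
/-- several decisive points are seen inside a random window -/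
theorem window (h : Up g) {X : Finset ℕ} (hX : X ⊆ range m) {V : Finset (Fin m)}
    (hV : ∀ x ∈ V, x.val ∉ X) (h2 : 2 ≤ V.card) :
    (V.card : ℝ) * (V.card - 1) * ((m - X.card) * (fac m * (den g (X.card + 1) - den g X.card)) -
      ∑ σ : Equiv.Perm (Fin m), if np g (pull σ X) = 0 then (0 : ℝ) else 1) ≤
    (m - X.card) * (m - X.card - 1) * (V.card * (fac m * (den g (X.card + 1) - den g X.card)) -
      ∑ σ : Equiv.Perm (Fin m),
        if (V.filter fun x => pv g (pull σ X) (σ.symm x)).card = 0 then (0 : ℝ) else 1) := by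
  obtain ⟨x, hx, y, hy, c⟩ := one_lt_card.1 h2
  have hR : ∀ x ∈ (pull (1 : Equiv.Perm (Fin m)) X)ᶜ, x.val ∉ X := fun x hx c =>
    mem_compl.1 hx (mem_filter.2 ⟨mem_univ _, c⟩)
  have cR : (((pull (1 : Equiv.Perm (Fin m)) X)ᶜ).card : ℝ) = m - X.card := by
    have := card_le_card hX
    rw [card_range] at this
    rw [card_compl, card_pull _ hX, Fintype.card_fin, Nat.cast_sub this]
  have a1 : ∀ W : Finset (Fin m), (∀ x ∈ W, x.val ∉ X) →
      ∑ p ∈ W.offDiag, ww g X p.1 p.2 = W.card * (W.card - 1) * ww g X x y := fun W hW => by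
    rw [sum_congr rfl (g := fun _ => ww g X x y) fun p hp => by
      rw [mem_offDiag] at hp
      exact ww_eq (hW _ hp.1) (hW _ hp.2.1) (hV _ hx) (hV _ hy) hp.2.2 c,
      sum_const, offDiag_card, nsmul_eq_mul, Nat.cast_sub (Nat.le_mul_self _)]
    push_cast
    ring
  have a2 := a1 V hV
  have a3 := a1 _ hR
  have a4 := piv_sum h hX hR
  rw [ww_sum] at a2 a3
  simp only [np_eq] at a3 a4
  rw [cR] at a3 a4
  have a5 : ∑ σ : Equiv.Perm (Fin m), (np g (pull σ X) : ℝ) * (np g (pull σ X) - 1) /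
      np g (pull σ X) = ∑ σ : Equiv.Perm (Fin m), (np g (pull σ X) : ℝ) -
      ∑ σ : Equiv.Perm (Fin m), if np g (pull σ X) = 0 then (0 : ℝ) else 1 := by
    rw [← sum_sub_distrib]
    refine sum_congr rfl fun σ _ => ?_
    split_ifs with d
    · simp [d]
    · rw [mul_div_cancel_left₀ _ (Nat.cast_ne_zero.2 d)]
  have a6 := sum_le_sum fun (σ : Equiv.Perm (Fin m)) (_ : σ ∈ univ) => show
      ((V.filter fun x => pv g (pull σ X) (σ.symm x)).card *
        ((V.filter fun x => pv g (pull σ X) (σ.symm x)).card - 1) : ℝ) / np g (pull σ X) ≤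
      (V.filter fun x => pv g (pull σ X) (σ.symm x)).card -
        if (V.filter fun x => pv g (pull σ X) (σ.symm x)).card = 0 then (0 : ℝ) else 1 by
    have b1 := np_ge (g := g) σ X V
    generalize (V.filter fun x => pv g (pull σ X) (σ.symm x)).card = H at b1 ⊢
    split_ifs with d
    · simp [d]
    · have b2 : (1 : ℝ) ≤ H := by exact_mod_cast Nat.pos_of_ne_zero d
      have b3 : (H : ℝ) ≤ np g (pull σ X) := by exact_mod_cast b1
      rw [div_le_iff₀ (by linarith)]
      nlinarith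
  rw [sum_sub_distrib, piv_sum h hX hV, a2] at a6
  rw [← a4, ← a5, a3]
  have b1 : (V.card : ℝ) ≤ m - X.card := by
    rw [← cR]
    exact_mod_cast card_le_card fun x hx => mem_compl.2 fun c => hV x hx (mem_filter.1 c).2
  have b2 : (2 : ℝ) ≤ V.card := by exact_mod_cast h2
  have b3 : (0 : ℝ) ≤ (m - X.card) * (m - X.card - 1) := mul_nonneg (by linarith) (by linarith)
  refine le_trans (le_of_eq ?_) (mul_le_mul_of_nonneg_left a6 b3)
  ring

open Classical in
theorem s0 (h : Up g) (hi : ∀ X Y, g X → g Y → ¬ Disjoint X Y) {j : ℕ} (e : 2 * j ≤ m)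
    (h2 : 2 ≤ j) :
    (j : ℝ) * (j - 1) * (den (Ins0 g) j - 1 + den g j + (m - j) * (den g (j + 1) - den g j)) ≤
      2 * ((m - j) * (m - j - 1)) * (j * den g (j + 1) - (j + 1) * den g j) := by
  have hp : (0 : ℝ) < 2 ^ j := by positivity
  have a1 : ∀ σ : Equiv.Perm (Fin m),
      2 * ∑ T ∈ (range j).powerset, (if g (pull σ (qq j T)) then (1 : ℝ) else 0) ≤
      ∑ T ∈ (range j).powerset, (∑ t ∈ range j, (if ¬ g (pull σ (qq j T)) ∧
        g (pull σ (insert (ot j T t) (qq j T))) then (1 : ℝ) else 0) +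
        if ((pull 1 (qq j (range j \ T))).filter
          fun x => pv g (pull σ (qq j T)) (σ.symm x)).card = 0 then (0 : ℝ) else 1) := fun σ => by
    have b1 := kp (range j) fun T => ¬ g (pull σ (qq j T))
    have b2 := half hi j σ
    have b3 : 0 ≤ ∑ T ∈ (range j).powerset, (if g (pull σ (qq j T)) then (1 : ℝ) else 0) :=
      sum_nonneg fun _ _ => ite_nn
    have b4 : ∑ T ∈ (range j).powerset, (if ¬ g (pull σ (qq j T)) then (1 : ℝ) else 0) =
        2 ^ j - ∑ T ∈ (range j).powerset, (if g (pull σ (qq j T)) then (1 : ℝ) else 0) := by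
      rw [eq_sub_iff_add_eq, ← sum_add_distrib, sum_congr rfl (g := fun _ => (1 : ℝ)) fun T _ => by
        by_cases c : g (pull σ (qq j T)) <;> simp [c]]
      simp
    rw [card_range] at b1
    refine le_trans (le_of_mul_le_mul_left (le_trans ?_ b1) hp) (sum_le_sum fun T _ => ?_)
    · rw [show (∑ T ∈ (range j).powerset, @ite ℝ (¬ g (pull σ (qq j T)))
        (Classical.propDecidable _) 1 0) = _ from (sum_congr rfl fun _ _ => by congr).trans b4]
      nlinarith [mul_nonneg b3 (sub_nonneg.2 b2)]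
    by_cases c : g (pull σ (qq j T))
    · rw [if_neg (not_not.2 c)]
      refine add_nonneg (sum_nonneg fun _ _ => ite_nn) ?_
      split_ifs <;> norm_num
    · rw [if_pos c, ph_eq]
      refine add_le_add ?_ ?_
      · exact hh_le _ fun t _ d => ⟨c, h _ _ (pull_mono σ (flip_sub T)) (not_not.1 d)⟩
      · split_ifs with d1 d2 d2
        · norm_num
        · norm_num
        · obtain ⟨t, ht⟩ := hh_ne d1
          rw [mem_range] at ht
          refine absurd d2 (card_ne_zero.2 ⟨⟨_, ot_lt e T ht.1⟩, mem_filter.2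
            ⟨mem_filter.2 ⟨mem_univ _, ot_mem T ht.1⟩, c, ?_⟩⟩)
          rw [← pull_insert]
          exact h _ _ (pull_mono σ (flip_sub T)) (not_not.1 ht.2)
        · norm_num
  have a2 := sum_le_sum fun σ (_ : σ ∈ univ) => a1 σ
  simp only [sum_add_distrib] at a2
  rw [← mul_sum, sum_cnt e, sum_comm,
    sum_congr rfl (g := fun _ => j * (fac m * (den g (j + 1) - den g j))) fun T _ => by
      rw [sum_comm, sum_congr rfl fun t ht => cnt_piv h (qq_sub e _) (ot_lt e _ (mem_range.1 ht))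
        (ot_not _ (mem_range.1 ht))]
      simp [card_qq], sum_const, card_powerset, card_range, nsmul_eq_mul, Nat.cast_pow,
    Nat.cast_ofNat, sum_comm] at a2
  have a3 := sum_le_sum fun T (_ : T ∈ (range j).powerset) => show
      (j : ℝ) * (j - 1) * ((m - j) * (fac m * (den g (j + 1) - den g j)) -
        fac m * (1 - den g j - den (Ins0 g) j)) ≤
      (m - j) * (m - j - 1) * (j * (fac m * (den g (j + 1) - den g j)) -
        ∑ σ : Equiv.Perm (Fin m), if ((pull 1 (qq j (range j \ T))).filter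
          fun x => pv g (pull σ (qq j T)) (σ.symm x)).card = 0 then (0 : ℝ) else 1) by
    have b1 := window h (qq_sub e T) (V := pull 1 (qq j (range j \ T)))
      (fun x hx c => disjoint_left.1 (qq_disj j T) c (mem_filter.1 hx).2)
      (by rwa [card_pull _ (qq_sub e _), card_qq])
    rw [card_pull _ (qq_sub e _), card_qq, card_qq] at b1
    have b2 : ∑ σ : Equiv.Perm (Fin m), (if np g (pull σ (qq j T)) = 0 then (0 : ℝ) else 1) =
        fac m * (1 - den g j - den (Ins0 g) j) := by
      have c1 := cnt_eq g (qq_sub e T)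
      have c2 := cnt_eq (Ins0 g) (qq_sub e T)
      rw [card_qq] at c1 c2
      rw [mul_sub, mul_sub, ← c1, ← c2, cnt, cnt, mul_one, fac, ← card_univ, card_eq_sum_ones,
        Nat.cast_sum, ← sum_sub_distrib, ← sum_sub_distrib]
      refine sum_congr rfl fun σ _ => ?_
      generalize pull σ (qq j T) = Y
      have c3 : np g Y = 0 ↔ g Y ∨ Ins0 g Y := by
        rw [np, card_eq_zero, filter_eq_empty_iff]
        simp only [pv, Ins0, mem_univ, true_imp_iff, not_and]
        by_cases d : g Y <;> simp [d]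
      have c4 : g Y → ¬ Ins0 g Y := fun d1 d2 => d2.1 d1
      by_cases d1 : g Y <;> by_cases d2 : Ins0 g Y <;> simp_all
    rwa [b2] at b1
  rw [sum_const, ← mul_sum, sum_sub_distrib, sum_const, card_powerset, card_range, nsmul_eq_mul,
    nsmul_eq_mul, Nat.cast_pow, Nat.cast_ofNat] at a3
  have b1 : (2 : ℝ) * j ≤ m := by exact_mod_cast e
  have b2 : (2 : ℝ) ≤ j := by exact_mod_cast h2
  have b3 : (0 : ℝ) ≤ (m - j) * (m - j - 1) := mul_nonneg (by linarith) (by linarith)
  refine le_of_mul_le_mul_left ?_ (mul_pos hp (fac_pos m))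
  nlinarith [mul_le_mul_of_nonneg_left a2 b3]

end Pool.Agent.P.MP_a66f6f_co.Pos
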