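import Mathlib

/-!
A one-sided isoperimetric inequality in the discrete cube that counts boundary edges and
boundary vertices together.
-/

namespace Pool.Agent.P.MP_a66f6f_co.Pos

open Finset
open scoped symmDiff

/-- the weight of a vertex with `h` neighbours on the other side -/
noncomputable def ph (h : ℕ) : ℝ := if h = 0 then 0 else h + 1

theorem ph_nonneg (h : ℕ) : 0 ≤ ph h := by
  unfold ph
  split_ifs <;> positivity

theorem ph_succ (h : ℕ) : ph h + 1 ≤ ph (h + 1) ∧ ph h / 2 + 2 ≤ ph (h + 1) := by
  have q1 : h ≠ 0 → (1 : ℝ) ≤ h := fun d => by exact_mod_cast Nat.pos_of_ne_zero d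
  unfold ph
  rw [if_neg (Nat.succ_ne_zero h)]
  push_cast
  split_ifs with c
  · rw [c]; norm_num
  · constructor <;> linarith [q1 c]

open Classical in
theorem kp_half {κ : Type*} (S : Finset κ) (a0 a1 : κ → Prop) (h0 h1 : κ → ℕ) (x0 x1 M : ℝ)
    (e0 : x0 = ∑ T ∈ S, if a0 T then 1 else 0) (e1 : x1 = ∑ T ∈ S, if a1 T then 1 else 0)
    (eM : M = S.card) (c : x1 ≤ x0)
    (i0 : 4 * x0 * (M - x0) ≤ M * ∑ T ∈ S, if a0 T then ph (h0 T) else 0)
    (i1 : 4 * x1 * (M - x1) ≤ M * ∑ T ∈ S, if a1 T then ph (h1 T) else 0) :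
    4 * (x0 + x1) * (2 * M - (x0 + x1)) ≤ 2 * M * ∑ T ∈ S,
      ((if a0 T then ph (h0 T + if a1 T then 0 else 1) else 0) +
        if a1 T then ph (h1 T + if a0 T then 0 else 1) else 0) := by
  have hM : 0 ≤ M := eM ▸ Nat.cast_nonneg _
  have b1 : 0 ≤ x1 := e1 ▸ sum_nonneg fun T _ => by split_ifs <;> norm_num
  have b0 : x0 ≤ M := by
    rw [e0, eM, card_eq_sum_ones, Nat.cast_sum]
    exact sum_le_sum fun T _ => by split_ifs <;> norm_num
  obtain ⟨T0, t0⟩ : ∃ T0, T0 = ∑ T ∈ S, if a0 T then ph (h0 T) else 0 := ⟨_, rfl⟩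
  obtain ⟨T1, t1⟩ : ∃ T1, T1 = ∑ T ∈ S, if a1 T then ph (h1 T) else 0 := ⟨_, rfl⟩
  obtain ⟨U, u⟩ : ∃ U, U = ∑ T ∈ S,
      ((if a0 T then ph (h0 T + if a1 T then 0 else 1) else 0) +
        if a1 T then ph (h1 T + if a0 T then 0 else 1) else 0) := ⟨_, rfl⟩
  have p1 : T0 + T1 + (x0 - x1) ≤ U := by
    rw [t0, t1, e0, e1, u, ← sum_sub_distrib, ← sum_add_distrib, ← sum_add_distrib]
    refine sum_le_sum fun T _ => ?_
    by_cases c0 : a0 T <;> by_cases c1 : a1 T <;> simp only [c0, c1, if_true, if_false, add_zero] <;>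
      linarith [(ph_succ (h0 T)).1, (ph_succ (h1 T)).1]
  have p2 : T0 / 2 + T1 + 2 * (x0 - x1) ≤ U := by
    rw [t0, t1, e0, e1, u, ← sum_sub_distrib, sum_div, mul_sum, ← sum_add_distrib,
      ← sum_add_distrib]
    refine sum_le_sum fun T _ => ?_
    by_cases c0 : a0 T <;> by_cases c1 : a1 T <;> simp only [c0, c1, if_true, if_false, add_zero] <;>
      linarith [(ph_succ (h0 T)).2, (ph_succ (h1 T)).1, ph_nonneg (h0 T)]
  rw [← t0] at i0
  rw [← t1] at i1
  rw [← u]
  rcases le_total (2 * (x0 - x1)) M with d | d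
  · nlinarith [mul_le_mul_of_nonneg_left p1 hM, mul_nonneg (sub_nonneg.2 c) (sub_nonneg.2 d)]
  · nlinarith [mul_le_mul_of_nonneg_left p2 hM,
      mul_nonneg b1 (show 0 ≤ x0 + (x0 - x1) - M by linarith)]

variable {ι : Type*} [DecidableEq ι]

open Classical in
/-- the number of directions in `V` that lead out of `A` -/
noncomputable def hh (V : Finset ι) (A : Finset ι → Prop) (T : Finset ι) : ℕ :=
  (V.filter fun v => ¬ A (T ∆ {v})).card

open Classical in
theorem kp (V : Finset ι) (A : Finset ι → Prop) :
    4 * (∑ T ∈ V.powerset, if A T then (1 : ℝ) else 0) *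
      (2 ^ V.card - ∑ T ∈ V.powerset, if A T then (1 : ℝ) else 0) ≤
      2 ^ V.card * ∑ T ∈ V.powerset, if A T then ph (hh V A T) else 0 := by
  induction V using Finset.induction_on generalizing A with
  | empty =>
    rw [powerset_empty, sum_singleton, sum_singleton]
    by_cases c : A ∅ <;> simp [c, ph, hh]
  | insert z W hz ih =>
    have i0 := ih A
    have i1 := ih fun T => A (insert z T)
    have e0 : ∀ T ∈ W.powerset, hh (insert z W) A T =
        hh W A T + if A (insert z T) then 0 else 1 := fun T hT => by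
      have h : z ∉ T := fun h => hz (mem_powerset.1 hT h)
      have : T ∆ {z} = insert z T := by
        ext x
        by_cases d : x = z
        · subst d; simp [mem_symmDiff, h]
        · simp [mem_symmDiff, d]
      rw [hh, hh, filter_insert, this]
      by_cases c : A (insert z T)
      · simp [c]
      · rw [if_pos c, if_neg c, card_insert_of_notMem fun d => hz (mem_filter.1 d).1]
    have e1 : ∀ T ∈ W.powerset, hh (insert z W) A (insert z T) =
        hh W (fun T => A (insert z T)) T + if A T then 0 else 1 := fun T hT => by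
      have h : z ∉ T := fun h => hz (mem_powerset.1 hT h)
      have a1 : insert z T ∆ {z} = T := by
        ext x
        by_cases d : x = z
        · subst d; simp [mem_symmDiff, h]
        · simp [mem_symmDiff, d]
      have a2 : W.filter (fun v => ¬ A (insert z T ∆ {v})) =
          W.filter fun v => ¬ A (insert z (T ∆ {v})) := by
        refine filter_congr fun v hv => ?_
        have a3 : insert z T ∆ {v} = insert z (T ∆ {v}) := by
          have : z ≠ v := fun d => hz (d ▸ hv)
          ext x
          by_cases d : x = z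
          · subst d; simp [mem_symmDiff, this]
          · simp [mem_symmDiff, d]
        rw [a3]
      rw [hh, hh, filter_insert, a1, a2]
      by_cases c : A T
      · simp [c]
      · rw [if_pos c, if_neg c, card_insert_of_notMem fun d => hz (mem_filter.1 d).1]
    have e2 : ∑ T ∈ (insert z W).powerset, (if A T then ph (hh (insert z W) A T) else 0) =
        ∑ T ∈ W.powerset, ((if A T then ph (hh W A T + if A (insert z T) then 0 else 1) else 0) +
          if A (insert z T) then ph (hh W (fun T => A (insert z T)) T + if A T then 0 else 1)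
          else 0) := by
      rw [sum_powerset_insert hz, ← sum_add_distrib]
      exact sum_congr rfl fun T hT => by rw [e0 T hT, e1 T hT]
    have eM : (2 : ℝ) ^ W.card = (W.powerset.card : ℝ) := by simp
    rw [e2, sum_powerset_insert hz, card_insert_of_notMem hz, pow_succ']
    rcases le_total (∑ T ∈ W.powerset, if A (insert z T) then (1 : ℝ) else 0)
      (∑ T ∈ W.powerset, if A T then (1 : ℝ) else 0) with c | c
    · exact kp_half _ _ _ _ _ _ _ _ rfl rfl eM c i0 i1
    · have := kp_half _ _ _ _ _ _ _ _ rfl rfl eM c i1 i0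
      simp only [add_comm (if A (insert z _) then _ else _ : ℝ)] at this
      rwa [add_comm (∑ T ∈ W.powerset, if A (insert z T) then (1 : ℝ) else 0)] at this

end Pool.Agent.P.MP_a66f6f_co.Pos
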