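import Mathlib

/-!
The numerical part: the average deficiency per point has to fall too fast.
-/

namespace Pool.Agent.P.MP_a66f6f_co.Pos

theorem poly {j m : ℝ} (h1 : 14 ≤ j) (h2 : 2 * j ≤ m) :
    (j + 1) * (j * (j * (j - 1) + (m - j) * (2 * m - 3 * j - 1))) ≤ 3 / 10 * m ^ 3 * (j - 1) := by
  have a1 : 0 ≤ (m - 3 * j) ^ 2 * (7 * m - 12 * j) := mul_nonneg (sq_nonneg _) (by linarith)
  have a2 : j * (j * (j - 1) + (m - j) * (2 * m - 3 * j - 1)) ≤ 7 / 27 * m ^ 3 := by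
    nlinarith [mul_nonneg (show 0 ≤ j by linarith) (show 0 ≤ m by linarith)]
  have a3 : 0 ≤ m ^ 3 := pow_nonneg (by linarith) 3
  nlinarith [mul_le_mul_of_nonneg_left a2 (show 0 ≤ j + 1 by linarith),
    mul_nonneg a3 (show 0 ≤ j - 14 by linarith)]

theorem desc {n m : ℕ} {w : ℝ} {z : ℕ → ℝ} (hn : 14 ≤ n)
    (mono : ∀ j, n ≤ j → 2 * j ≤ m → z (j + 1) ≤ z j)
    (hD : ∀ j : ℕ, n ≤ j → 2 * j ≤ m → (j - 1) * (w - m * z j) ≤
      (j + 1) * (j * (j - 1) + (m - j) * (2 * m - 3 * j - 1)) * (z j - z (j + 1)))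
    {J l : ℕ} (h1 : n ≤ J) (h2 : J ≤ l) (h3 : 2 * l ≤ m) :
    z l ≤ z J ∧ (w - m * z J) * (l * (l - 1) - J * (J - 1)) ≤ 3 / 5 * m ^ 3 * (z J - z l) := by
  induction l, h2 using Nat.le_induction with
  | base => simp
  | succ l h2 ih =>
    obtain ⟨i1, i2⟩ := ih (by omega)
    have a1 := mono l (by omega) (by omega)
    have a2 := hD l (by omega) (by omega)
    have a3 : (14 : ℝ) ≤ l := by exact_mod_cast (show 14 ≤ l by omega)
    have a4 : (2 : ℝ) * l ≤ m := by exact_mod_cast (show 2 * l ≤ m by omega)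
    have a5 := mul_le_mul_of_nonneg_right (poly a3 a4) (sub_nonneg.2 a1)
    have a6 : (w - m * z l) * l ≤ 3 / 10 * m ^ 3 * (z l - z (l + 1)) := by
      refine le_of_mul_le_mul_left ?_ (show (0 : ℝ) < l - 1 by linarith)
      nlinarith [mul_le_mul_of_nonneg_left a2 (show (0 : ℝ) ≤ l by linarith)]
    have a7 : 0 ≤ (m : ℝ) * l * (z J - z l) :=
      mul_nonneg (mul_nonneg (by linarith) (by linarith)) (sub_nonneg.2 i1)
    refine ⟨a1.trans i1, ?_⟩
    push_cast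
    nlinarith

theorem decay {m J : ℕ} {B : ℝ} {u : ℕ → ℝ} (hJ : 14 ≤ J) (hB : 0 ≤ B) (h0 : u J ≤ B)
    (h : ∀ j : ℕ, J ≤ j → 2 * j ≤ m → j * u (j + 1) ≤ (j - 14) * u j) {l : ℕ} (h2 : J ≤ l)
    (h3 : 2 * l ≤ m) : u l * (l : ℝ) ^ 14 ≤ B * (J : ℝ) ^ 14 := by
  induction l, h2 using Nat.le_induction with
  | base => exact mul_le_mul_of_nonneg_right h0 (by positivity)
  | succ l h2 ih =>
    have i1 := ih (by omega)
    have a1 := h l h2 (by omega)
    have a3 : (14 : ℝ) ≤ l := by exact_mod_cast (show 14 ≤ l by omega)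
    have a4 : ((l : ℝ) - 14) * (l + 1) ^ 14 ≤ l * l ^ 14 := by
      have b1 : (0 : ℝ) < l + 1 := by linarith
      have b2 := one_add_mul_le_pow (a := -(1 / ((l : ℝ) + 1))) (by
        have : 1 / ((l : ℝ) + 1) ≤ 1 := by rw [div_le_one b1]; linarith
        linarith) 14
      have b3 : 1 + -(1 / ((l : ℝ) + 1)) = l / (l + 1) := by field_simp; ring
      rw [b3, div_pow, le_div_iff₀ (by positivity)] at b2
      have b4 : (l : ℝ) - 14 ≤ l * (1 + (14 : ℕ) * -(1 / ((l : ℝ) + 1))) := by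
        have : (l : ℝ) * (1 / (l + 1)) ≤ 1 := by rw [mul_one_div, div_le_one b1]; linarith
        push_cast
        linarith
      calc ((l : ℝ) - 14) * (l + 1) ^ 14
          ≤ l * (1 + (14 : ℕ) * -(1 / ((l : ℝ) + 1))) * (l + 1) ^ 14 :=
            mul_le_mul_of_nonneg_right b4 (by positivity)
        _ ≤ _ := by rw [mul_assoc]; exact mul_le_mul_of_nonneg_left b2 (by linarith)
    have a5 : (0 : ℝ) < l := by linarith
    have a6 : (0 : ℝ) ≤ (l + 1) ^ 14 := by positivity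
    have a7 : 0 ≤ B * (J : ℝ) ^ 14 := by positivity
    push_cast
    refine le_of_mul_le_mul_left ?_ a5
    have a8 := mul_le_mul_of_nonneg_right a1 a6
    generalize ((l : ℝ) + 1) ^ 14 = P at *
    generalize (l : ℝ) ^ 14 = Q at *
    generalize B * (J : ℝ) ^ 14 = R at *
    rcases le_total 0 (u l) with c | c
    · nlinarith [mul_le_mul_of_nonneg_left a4 c, mul_le_mul_of_nonneg_left i1 a5.le]
    · nlinarith [mul_nonneg (mul_nonneg (sub_nonneg.2 a3) a6) (neg_nonneg.2 c), mul_nonneg a5.le a7]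

theorem fin_a {n m r e : ℝ} (r1 : 1 ≤ r) (n1 : 16 * r ≤ n) (m1 : 2 * n ≤ m)
    (q2 : m ≤ 2 * (n + e) + 1) (e0 : 0 ≤ e) (e2 : 4 * e ≤ 7 * n)
    (a1 : 15 * r * ((n + e) * (n + e - 1) - n * (n - 1)) * n ≤
      (2 * e * r - (n - r)) * (3 / 5 * m ^ 2 + ((n + e) * (n + e - 1) - n * (n - 1)))) : False := by
  have n0 : (0 : ℝ) < n := by linarith
  have a2 : (0 : ℝ) < 3 / 5 * m ^ 2 + ((n + e) * (n + e - 1) - n * (n - 1)) := by nlinarith
  have a3 : 2 * (3 / 5 * m ^ 2 + ((n + e) * (n + e - 1) - n * (n - 1)) : ℝ) ≤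
      15 * n * (2 * n + e - 1) := by
    have b1 : (m : ℝ) ^ 2 ≤ (2 * (n + e) + 1) ^ 2 :=
      pow_le_pow_left₀ (by linarith) (by linarith) 2
    nlinarith [mul_nonneg e0 (sub_nonneg.2 e2), mul_nonneg n0.le (sub_nonneg.2 e2),
      mul_nonneg n0.le (show (0 : ℝ) ≤ n - 16 by linarith)]
  nlinarith [mul_le_mul_of_nonneg_left a3 (mul_nonneg e0 (zero_le_one.trans r1)),
    mul_pos a2 (show (0 : ℝ) < n - r by linarith)]

theorem fin_b {m r h J : ℝ} (r1 : 1 ≤ r) (b1 : 88 ≤ m) (q2 : m ≤ 2 * h + 1) (j0 : 1 ≤ J)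
    (j2 : 50 * J ≤ 21 * m + 49) (a7 : 15 * r * (h * (h - 1) - J * (J - 1)) ≤
      6 / 7 * r * (3 / 5 * m ^ 2 + (h * (h - 1) - J * (J - 1)))) : False := by
  have a8 : (1 / 25 * m ^ 2 : ℝ) ≤ h * (h - 1) - J * (J - 1) := by
    have b2 : ((m : ℝ) - 1) / 2 * ((m - 1) / 2 - 1) ≤ h * (h - 1) :=
      mul_le_mul (by linarith) (by linarith) (by linarith) (by linarith)
    have b3 : (J : ℝ) * (J - 1) ≤ (21 * m + 49) / 50 * ((21 * m + 49) / 50 - 1) :=
      mul_le_mul (by linarith) (by linarith) (by linarith) (by linarith)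
    nlinarith [mul_nonneg (show (0 : ℝ) ≤ m by linarith) (sub_nonneg.2 b1)]
  have a9 : (0 : ℝ) < m ^ 2 := by nlinarith
  generalize (h * (h - 1) - J * (J - 1) : ℝ) = S at a7 a8
  nlinarith [mul_le_mul_of_nonneg_left a8 (zero_le_one.trans r1),
    mul_pos a9 (zero_lt_one.trans_le r1)]

theorem numeric {n m r : ℕ} {b t : ℝ} {z : ℕ → ℝ} (hr : 1 ≤ r) (hn : 16 * r ≤ n) (hm : 2 * n ≤ m)
    (hb : 15 * r ≤ b) (ht : 2 * r + 1 ≤ t) (h0 : n * z n ≤ r)
    (mono : ∀ j, n ≤ j → 2 * j ≤ m → z (j + 1) ≤ z j)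
    (hD : ∀ j : ℕ, n ≤ j → 2 * j ≤ m → (j - 1) * (b + t - m * z j) ≤
      (j + 1) * (j * (j - 1) + (m - j) * (2 * m - 3 * j - 1)) * (z j - z (j + 1)))
    (hG : ∀ j : ℕ, 2 * n ≤ j → 2 * j ≤ m →
      15 * (j * z j - r) ≤ j * (j + 1) * (z j - z (j + 1)))
    (top : t ≤ m * z (m / 2)) : False := by
  obtain ⟨h, hh⟩ : ∃ h, h = m / 2 := ⟨_, rfl⟩
  rw [← hh] at top
  have r1 : (1 : ℝ) ≤ r := by exact_mod_cast hr
  have n1 : (16 : ℝ) * r ≤ n := by exact_mod_cast hn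
  have m1 : (2 : ℝ) * n ≤ m := by exact_mod_cast hm
  have q1 : (2 : ℝ) * h ≤ m := by exact_mod_cast (show 2 * h ≤ m by omega)
  have q2 : (m : ℝ) ≤ 2 * h + 1 := by exact_mod_cast (show m ≤ 2 * h + 1 by omega)
  have key : ∀ (J : ℕ) (U : ℝ), n ≤ J → J ≤ h → m * z J - t ≤ U →
      15 * r * (h * (h - 1) - J * (J - 1) : ℝ) ≤
        U * (3 / 5 * m ^ 2 + (h * (h - 1) - J * (J - 1))) := fun J U c1 c2 c3 => by
    have a1 := (desc (by omega) mono hD c1 c2 (by omega)).2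
    have a2 : (J : ℝ) ≤ h := by exact_mod_cast c2
    have a3 : (n : ℝ) ≤ J := by exact_mod_cast c1
    have a4 : (0 : ℝ) ≤ h * (h - 1) - J * (J - 1) := by nlinarith
    generalize (h * (h - 1) - J * (J - 1) : ℝ) = S at a1 a4 ⊢
    have a5 : (0 : ℝ) ≤ m ^ 2 := sq_nonneg _
    nlinarith [mul_le_mul_of_nonneg_right c3 a4, mul_le_mul_of_nonneg_right c3 a5,
      mul_le_mul_of_nonneg_right top a5, mul_le_mul_of_nonneg_right hb a4]
  have n0 : (0 : ℝ) < n := by linarith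
  rcases le_or_gt (2 * m) (11 * n) with c | c
  · obtain ⟨e, he⟩ := Nat.exists_eq_add_of_le (show n ≤ h by omega)
    have e1 : (h : ℝ) = n + e := by exact_mod_cast he
    have e2 : (4 : ℝ) * e ≤ 7 * n := by exact_mod_cast (show 4 * e ≤ 7 * n by omega)
    have e0 : (0 : ℝ) ≤ e := Nat.cast_nonneg _
    have a1 := key n ((2 * e * r - (n - r)) / n) le_rfl (by omega) (by
      rw [le_div_iff₀ n0]
      nlinarith [mul_le_mul_of_nonneg_left h0 (show (0 : ℝ) ≤ m by linarith),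
        mul_le_mul_of_nonneg_right ht n0.le, mul_le_mul_of_nonneg_right q2 (zero_le_one.trans r1)])
    rw [div_mul_eq_mul_div, le_div_iff₀ n0, e1] at a1
    exact fin_a r1 n1 m1 (e1 ▸ q2) e0 e2 a1
  · obtain ⟨J, hJ⟩ : ∃ J, J = (21 * m + 49) / 50 := ⟨_, rfl⟩
    have c1 : (11 : ℝ) * n ≤ 2 * m := by exact_mod_cast c.le
    have j1 : (21 : ℝ) * m ≤ 50 * J := by exact_mod_cast (show 21 * m ≤ 50 * J by omega)
    have j2 : (50 : ℝ) * J ≤ 21 * m + 49 := by exact_mod_cast (show 50 * J ≤ 21 * m + 49 by omega)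
    have j0 : (0 : ℝ) < J := by linarith
    have a1 := (desc (by omega) mono hD le_rfl (show n ≤ 2 * n by omega) (by omega)).1
    have a2 := decay (m := m) (J := 2 * n) (B := 13 / 14 * r)
      (u := fun j => j * z j - 15 / 14 * r) (by omega) (by positivity) (by
        push_cast
        nlinarith [mul_le_mul_of_nonneg_left a1 n0.le]) (fun j d1 d2 => by
        have := hG j d1 d2
        push_cast
        linarith) (l := J) (by omega) (by omega)
    have a3 : ((2 * n : ℕ) : ℝ) ^ 14 ≤ (200 / 231 * J) ^ 14 :=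
      pow_le_pow_left₀ (by positivity) (by push_cast; linarith) 14
    have a4 : (200 / 231 : ℝ) ^ 14 ≤ 9 / 65 := by norm_num
    have a5 : (0 : ℝ) < (J : ℝ) ^ 14 := by positivity
    have a6 : J * z J ≤ 6 / 5 * r := by
      rw [mul_pow] at a3
      have b1 := a3.trans (mul_le_mul_of_nonneg_right a4 a5.le)
      have b2 := a2.trans (mul_le_mul_of_nonneg_left b1 (by positivity))
      rw [← mul_assoc] at b2
      have b3 := le_of_mul_le_mul_right b2 a5
      linarith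
    have a7 := key J (6 / 7 * r) (by omega) (by omega) (by
      refine le_of_mul_le_mul_left ?_ j0
      nlinarith [mul_le_mul_of_nonneg_left a6 (show (0 : ℝ) ≤ m by linarith),
        mul_le_mul_of_nonneg_right ht j0.le, mul_le_mul_of_nonneg_right j1 (zero_le_one.trans r1)])
    exact fin_b r1 (by linarith) q2 (by linarith) j2 a7

end Pool.Agent.P.MP_a66f6f_co.Pos
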