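import Pool.Agent.P.MP_a66f6f_co.Pos.Point
import Pool.Agent.P.MP_a66f6f_co.Pos.Num
import Pool.Agent.P.MP_a66f6f_co.Ped.Main
import Pool.Agent.P.MP_a66f6f_co.Main

/-!
Stahl's formula for a positive proportion of the residues, for every Kneser graph.
-/

namespace Pool.Agent.P.MP_a66f6f_co.Pos

open Finset Ped

set_option linter.unusedSectionVars false

variable {β : Type*} [DecidableEq β] [Fintype β] {m n k q r b : ℕ} {C : Finset (Fin m) → Finset β}

open Classical in
theorem avg (P : β → Finset (Fin m) → Prop) {X : Finset ℕ} (hX : X ⊆ range m) :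
    fac m * ∑ c, den (P c) X.card =
      ∑ σ : Equiv.Perm (Fin m), ((univ.filter fun c => P c (pull σ X)).card : ℝ) := by
  simp only [mul_sum, ← cnt_eq _ hX, cnt, card_filter]
  push_cast
  exact sum_comm

theorem sum_fac (x : ℝ) : ∑ _σ : Equiv.Perm (Fin m), x = fac m * x := by
  rw [sum_const, card_univ, nsmul_eq_mul, fac]

/-- the average number of colours on a level -/
noncomputable def cc (C : Finset (Fin m) → Finset β) (j : ℕ) : ℝ := ∑ c, den (fun Y => c ∈ C Y) j

/-- the average number of robust colours on a level -/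
noncomputable def j1 (C : Finset (Fin m) → Finset β) (j : ℕ) : ℝ :=
  ∑ c, den (Ins1 fun Y => c ∈ C Y) j

/-- the average number of robustly absent colours on a level -/
noncomputable def j0 (C : Finset (Fin m) → Finset β) (j : ℕ) : ℝ :=
  ∑ c, den (Ins0 fun Y => c ∈ C Y) j

theorem cc_eq {X : Finset ℕ} (hX : X ⊆ range m) :
    fac m * cc C X.card = ∑ σ : Equiv.Perm (Fin m), ((C (pull σ X)).card : ℝ) := by
  rw [cc, avg _ hX]
  refine sum_congr rfl fun σ _ => ?_
  congr 2
  ext c
  simp

theorem j1_eq {X : Finset ℕ} (hX : X ⊆ range m) :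
    fac m * j1 C X.card = ∑ σ : Equiv.Perm (Fin m), (rb C (pull σ X) : ℝ) := by
  rw [j1, avg _ hX]
  refine sum_congr rfl fun σ _ => ?_
  rw [rb]
  congr 2
  ext c
  rw [@mem_filter _ _ (_), mem_filter, Ins1]
  simp

theorem j0_ge (h : Sys C univ n k) {X : Finset ℕ} (hX : X ⊆ range m) :
    ∑ σ : Equiv.Perm (Fin m), (rb C (pull σ X)ᶜ : ℝ) ≤ fac m * j0 C X.card := by
  classical
  rw [j0, avg _ hX]
  refine sum_le_sum fun σ _ => Nat.cast_le.2 (card_le_card fun c hc => ?_)
  rw [mem_filter] at hc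
  refine mem_filter.2 ⟨mem_univ _, disjoint_left.1 (h.disj _ _ disjoint_compl_left) hc.1, fun i => ?_⟩
  refine disjoint_left.1 (h.disj _ _ ?_) (hc.2 i)
  rw [← compl_insert]
  exact disjoint_compl_left

theorem cc_base (h : Sys C univ n k) (e : n ≤ m) : k ≤ cc C n := by
  have e' := range_subset_range.2 e
  have a1 := cc_eq (C := C) e'
  rw [card_range] at a1
  refine le_of_mul_le_mul_left ?_ (fac_pos m)
  rw [a1, ← sum_fac]
  exact sum_le_sum fun σ _ => Nat.cast_le.2
    (h.big _ (subset_univ _) (by rw [card_pull _ e', card_range]))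

theorem cc_add (h : Sys C univ n k) {i j : ℕ} (e : i + j ≤ m) :
    cc C i + cc C j ≤ Fintype.card β := by
  have a1 := cc_eq (C := C) (range_subset_range.2 (show i ≤ m by omega))
  have a2 := cc_eq (C := C) (X := Ico i (i + j)) fun x hx => by
    rw [mem_Ico] at hx
    rw [mem_range]
    omega
  rw [card_range] at a1
  rw [Nat.card_Ico, Nat.add_sub_cancel_left] at a2
  refine le_of_mul_le_mul_left ?_ (fac_pos m)
  rw [mul_add, a1, a2, ← sum_add_distrib, ← sum_fac]
  refine sum_le_sum fun σ _ => ?_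
  exact_mod_cast card_add h (pull_disj σ (disjoint_left.2 fun x c1 c2 => by
    rw [mem_Ico] at c2
    rw [mem_range] at c1
    omega))

theorem band_avg (hm : 0 < m) (h : Sys C univ n k) (hk : k + r = q * n) (hb : b + r = n)
    (hN : Fintype.card β + 2 * r < q * m) {j : ℕ} (h1 : n ≤ j) (h2 : j + n ≤ m) :
    b ≤ j1 C j + j0 C j := by
  have e := range_subset_range.2 (show j ≤ m by omega)
  have a1 := j1_eq (C := C) e
  have a2 := j0_ge h e
  rw [card_range] at a1 a2
  refine le_of_mul_le_mul_left ?_ (fac_pos m)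
  rw [mul_add, a1, ← sum_fac]
  refine le_trans ?_ (add_le_add_right a2 _)
  rw [← sum_add_distrib]
  refine sum_le_sum fun σ _ => ?_
  exact_mod_cast band hm h hk hb hN (by rwa [card_pull _ e, card_range])
    (by rwa [card_pull _ e, card_range])

theorem growth_avg (hn : 1 ≤ n) (h : Sys C univ n k) (hk : k + r = q * n) (hb : b + r = n)
    {j : ℕ} (h1 : 2 * n ≤ j) (h2 : j ≤ m) : (b : ℝ) * (q * j - cc C j) ≤ b * r + r * j1 C j := by
  have e := range_subset_range.2 h2
  have a1 := j1_eq (C := C) e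
  have a2 := cc_eq (C := C) e
  have a3 := sum_le_sum fun (σ : Equiv.Perm (Fin m)) (_ : σ ∈ univ) =>
    growth hn h hk hb (X := pull σ (range j)) (by rwa [card_pull _ e, card_range])
  simp only [card_pull _ e] at a3
  rw [← mul_sum, sum_sub_distrib, sum_add_distrib, ← mul_sum _ _ (r : ℝ), ← a1, ← a2, sum_fac,
    sum_fac, card_range] at a3
  refine le_of_mul_le_mul_left ?_ (fac_pos m)
  linarith

theorem j1_le (h : Sys C univ n k) {j : ℕ} (e : 2 * j ≤ m) :
    j1 C j ≤ j * cc C (j + 1) - (j + 1) * cc C j := by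
  rw [j1, cc, cc, mul_sum, mul_sum, ← sum_sub_distrib]
  exact sum_le_sum fun c _ => s1 (fun _ _ d hc => h.mono _ _ d hc)
    (fun X Y c1 c2 d => disjoint_left.1 (h.disj _ _ d) c1 c2) e

theorem j0_le (h : Sys C univ n k) {j : ℕ} (e : 2 * j ≤ m) (h2 : 2 ≤ j) :
    (j : ℝ) * (j - 1) * (j0 C j - Fintype.card β + cc C j + (m - j) * (cc C (j + 1) - cc C j)) ≤
      2 * ((m - j) * (m - j - 1)) * (j * cc C (j + 1) - (j + 1) * cc C j) := by
  have a1 := sum_le_sum fun c (_ : c ∈ univ) => s0 (g := fun Y => c ∈ C Y)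
    (fun _ _ d hc => h.mono _ _ d hc)
    (fun X Y c1 c2 d => disjoint_left.1 (h.disj _ _ d) c1 c2) e h2
  simp only [← mul_sum, sum_add_distrib, sum_sub_distrib] at a1
  rwa [sum_const, card_univ, nsmul_eq_mul, mul_one] at a1

theorem lower (h : Sys C univ n k) (hk : k + r = q * n) (hb : b + r = n) (hr : 1 ≤ r)
    (hn : 16 * r ≤ n) (hm : 2 * n ≤ m) : q * m ≤ Fintype.card β + 2 * r := by
  by_contra hN
  rw [not_le] at hN
  have k1 : (k : ℝ) + r = q * n := by exact_mod_cast hk
  have r1 : (1 : ℝ) ≤ r := by exact_mod_cast hr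
  have b1 : (15 : ℝ) * r ≤ b := by exact_mod_cast (show 15 * r ≤ b by omega)
  have N1 : (Fintype.card β : ℝ) + 2 * r + 1 ≤ q * m := by exact_mod_cast hN
  have p0 : ∀ j : ℕ, n ≤ j → (16 : ℝ) ≤ j := fun j e => by exact_mod_cast (show 16 ≤ j by omega)
  have p1 : ∀ j : ℕ, n ≤ j → (j : ℝ) * (q - cc C j / j) = q * j - cc C j := fun j e => by
    have := p0 j e
    field_simp
  have p2 : ∀ j : ℕ, n ≤ j → (j : ℝ) * (j + 1) * ((q - cc C j / j) -
      (q - cc C (j + 1) / (j + 1 : ℕ))) = j * cc C (j + 1) - (j + 1) * cc C j := fun j e => by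
    have := p0 j e
    push_cast
    field_simp
    ring
  have p3 : ∀ j : ℕ, 0 ≤ j1 C j := fun j => sum_nonneg fun c _ => den_nonneg _ _
  refine numeric (b := b) (t := q * m - Fintype.card β) (z := fun j => q - cc C j / j) hr hn hm b1
    (by linarith) ?_ (fun j d1 d2 => ?_) (fun j d1 d2 => ?_) (fun j d1 d2 => ?_) ?_
  · rw [p1 n le_rfl]
    linarith [cc_base h (show n ≤ m by omega)]
  · have a1 := (p3 j).trans (j1_le h d2)
    have a2 := p0 j d1
    rw [← p2 j d1] at a1
    exact sub_nonneg.1 (nonneg_of_mul_nonneg_right a1 (by positivity))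
  · have a1 := j1_le h d2
    have a2 := p0 j d1
    have a3 := j0_le h d2 (by omega)
    have a4 := band_avg (by omega) h hk hb hN d1 (by omega)
    have a5 := p1 j d1
    have a6 := p2 j d1
    generalize q - cc C j / j = z at a5 a6 ⊢
    generalize q - cc C (j + 1) / (j + 1 : ℕ) = z' at a6 ⊢
    have a7 : cc C j = q * j - j * z := by linarith
    have a8 : cc C (j + 1) = (j + 1) * (q - z') := by
      refine mul_left_cancel₀ (show (j : ℝ) ≠ 0 by linarith) ?_
      rw [a7] at a6
      linarith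
    rw [a7, a8] at a1 a3
    refine le_of_mul_le_mul_left ?_ (show (0 : ℝ) < j by linarith)
    nlinarith [mul_le_mul_of_nonneg_left (a4.trans (add_le_add_left a1 _))
      (show (0 : ℝ) ≤ j * (j - 1) by nlinarith)]
  · have a1 := j1_le h d2
    have a2 := growth_avg (by omega) h hk hb d1 (show j ≤ m by omega)
    rw [p1 j (by omega), p2 j (by omega)]
    rcases le_total (q * j - cc C j) r with c | c
    · linarith [p3 j]
    · refine le_trans (le_of_mul_le_mul_left ?_ (show (0 : ℝ) < r by linarith)) a1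
      nlinarith [mul_le_mul_of_nonneg_right b1 (sub_nonneg.2 c)]
  · obtain ⟨i, hi⟩ : ∃ i, i = m / 2 := ⟨_, rfl⟩
    rw [← hi]
    have a1 := p0 i (by omega)
    have a2 := p1 i (by omega)
    refine le_of_mul_le_mul_left ?_ (show (0 : ℝ) < i by linarith)
    have a3 : (m : ℝ) * cc C i ≤ i * Fintype.card β := by
      rcases Nat.even_or_odd' m with ⟨l, c | c⟩
      · have c1 : (m : ℝ) = 2 * i := by exact_mod_cast (show m = 2 * i by omega)
        have := cc_add h (show i + i ≤ m by omega)
        nlinarith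
      · have c1 : (m : ℝ) = 2 * i + 1 := by exact_mod_cast (show m = 2 * i + 1 by omega)
        have c2 := cc_add h (show i + (i + 1) ≤ m by omega)
        have c3 := (p3 i).trans (j1_le h (show 2 * i ≤ m by omega))
        rw [c1]
        nlinarith [mul_le_mul_of_nonneg_left c2 (show (0 : ℝ) ≤ i by linarith)]
    nlinarith

theorem stahl_pos (n m a b : ℕ) (hn : 1 ≤ n) (hm : 2 * n ≤ m) (hb : b ≤ n)
    (h : 16 * (n - b) ≤ n) :
    IsLeast {N : ℕ | Nonempty (kneser m n →g kneser N (a * n + b))}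
      ((a + 1) * m - 2 * (n - b)) := by
  refine ⟨hom_of_col (by omega) (Col.stahl m n a b hm hb), ?_⟩
  rintro N ⟨f⟩
  obtain ⟨C, hC⟩ := sys_of_hom hn f
  rcases hb.eq_or_lt with c | c
  · have a1 := ekr hC hn (B := univ) (by simpa using hm)
    have a2 := card_le_univ (C univ)
    rw [card_univ, Fintype.card_fin, c] at a1
    rw [Fintype.card_fin] at a2
    have a3 : n * ((a + 1) * m) ≤ n * N := by nlinarith
    exact (Nat.sub_le _ _).trans (Nat.le_of_mul_le_mul_left a3 hn)
  · have := lower (q := a + 1) (r := n - b) (b := b) hC (by rw [add_mul]; omega) (by omega)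
      (by omega) h hm
    rw [Fintype.card_fin] at this
    omega

end Pool.Agent.P.MP_a66f6f_co.Pos
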