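import Pool.Agent.P.MP_a66f6f_co.Pos.Iso

/-!
Pointwise bounds: a set with few robust colours has many colours.
-/

namespace Pool.Agent.P.MP_a66f6f_co.Pos

open Finset Ped

variable {β : Type*} [DecidableEq β] {m n k : ℕ} {C : Finset (Fin m) → Finset β}

theorem ekr (h : Sys C univ n k) (hn : 1 ≤ n) {B : Finset (Fin m)} (hB : 2 * n ≤ B.card) :
    k * B.card ≤ n * (C B).card := by
  obtain ⟨j, hj⟩ : ∃ j, j = B.card := ⟨_, rfl⟩
  obtain ⟨e, he⟩ : ∃ e : Fin j ↪ Fin m, ∀ x, e x ∈ B :=
    ⟨(B.orderEmbOfFin hj.symm).toEmbedding, fun x => orderEmbOfFin_mem _ _ x⟩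
  have a0 : ∀ A : Finset (Fin j), A.map e ⊆ B := fun A x hx => by
    obtain ⟨y, -, rfl⟩ := mem_map.1 hx
    exact he y
  have a1 : ∀ c, ((powersetCard n univ).filter fun A : Finset (Fin j) => c ∈ C (A.map e)).card ≤
      (j - 1).choose (n - 1) := fun c =>
    erdos_ko_rado (fun X hX Y hY d => disjoint_left.1 (h.disj _ _ ((disjoint_map e).2 d))
      (mem_filter.1 hX).2 (mem_filter.1 hY).2)
      (fun X hX => (mem_powersetCard.1 (mem_filter.1 hX).1).2) (by omega)
  have a2 : j.choose n * k ≤ (C B).card * (j - 1).choose (n - 1) := by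
    have b1 := card_nsmul_le_sum (powersetCard n (univ : Finset (Fin j)))
      (fun A => ((C B).filter fun c => c ∈ C (A.map e)).card) k fun A hA => by
        rw [filter_mem_eq_inter, inter_eq_right.2 (h.mono _ _ (a0 A))]
        exact h.big _ (subset_univ _) (by rw [card_map, (mem_powersetCard.1 hA).2])
    rw [card_powersetCard, card_univ, Fintype.card_fin, smul_eq_mul] at b1
    refine b1.trans ?_
    simp only [card_filter]
    rw [sum_comm]
    simp only [← card_filter]
    exact sum_le_card_nsmul _ _ _ fun c _ => a1 c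
  have a3 := Nat.add_one_mul_choose_eq (j - 1) (n - 1)
  rw [show j - 1 + 1 = j by omega, show n - 1 + 1 = n by omega] at a3
  have a4 : 0 < (j - 1).choose (n - 1) := Nat.choose_pos (by omega)
  rw [← hj]
  refine Nat.le_of_mul_le_mul_right ?_ a4
  calc k * j * (j - 1).choose (n - 1) = n * (j.choose n * k) := by
        rw [mul_assoc, a3]; ring
    _ ≤ n * ((C B).card * (j - 1).choose (n - 1)) := Nat.mul_le_mul_left _ a2
    _ = _ := by ring

/-- the number of colours of `X` that survive the removal of any point -/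
def rb (C : Finset (Fin m) → Finset β) (X : Finset (Fin m)) : ℕ :=
  ((C X).filter fun c => ∀ i, c ∈ C (X.erase i)).card

theorem charge (hm : 0 < m) (h : Sys C univ n k) (X : Finset (Fin m)) :
    ∃ d : Fin m → ℕ, ∑ i ∈ X, d i + rb C X = (C X).card ∧
      ∀ B ⊆ X, (C B).card ≤ ∑ i ∈ B, d i + rb C X := by
  have a1 : ∀ c, ∃ i, (¬ ∀ i, c ∈ C (X.erase i)) → c ∉ C (X.erase i) := fun c => by
    by_cases d : ∀ i, c ∈ C (X.erase i)
    · exact ⟨⟨0, hm⟩, fun e => absurd d e⟩
    · obtain ⟨i, hi⟩ := not_forall.1 d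
      exact ⟨i, fun _ => hi⟩
  choose φ hφ using a1
  obtain ⟨S, hS⟩ : ∃ S, S = (C X).filter fun c => ¬ ∀ i, c ∈ C (X.erase i) := ⟨_, rfl⟩
  have a2 : ∀ B ⊆ X, ∀ c ∈ S, c ∈ C B → φ c ∈ B := fun B hB c hc e => by
    by_contra d
    rw [hS] at hc
    exact hφ c (mem_filter.1 hc).2 (h.mono _ _ (subset_erase.2 ⟨hB, d⟩) e)
  refine ⟨fun i => (S.filter fun c => φ c = i).card, ?_, fun B hB => ?_⟩
  · rw [← card_eq_sum_card_fiberwise fun c hc => a2 X Subset.rfl c hc
      (by rw [hS] at hc; exact (mem_filter.1 hc).1), hS, rb, add_comm]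
    exact card_filter_add_card_filter_not _
  · rw [sum_card_fiberwise_eq_card_filter, rb]
    refine le_trans (card_le_card fun c hc => ?_) (card_union_le _ _)
    by_cases d : ∀ i, c ∈ C (X.erase i)
    · exact mem_union_right _ (mem_filter.2 ⟨h.mono _ _ hB hc, d⟩)
    · have : c ∈ S := hS ▸ mem_filter.2 ⟨h.mono _ _ hB hc, d⟩
      exact mem_union_left _ (mem_filter.2 ⟨this, a2 B hB c this hc⟩)

/-- the light points of a set -/
theorem light (q : ℕ) (hm : 0 < m) (h : Sys C univ n k) (X : Finset (Fin m)) :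
    ∃ T ⊆ X, (∀ B ⊆ T, (C B).card + B.card ≤ q * B.card + rb C X) ∧
      ∀ B ⊆ X, T ⊆ B → q * X.card + (C B).card ≤ (C X).card + q * B.card := by
  obtain ⟨d, d1, d2⟩ := charge hm h X
  refine ⟨X.filter fun i => d i < q, filter_subset _ _, fun B hB => ?_, fun B hB hT => ?_⟩
  · have a1 := d2 B (hB.trans (filter_subset _ _))
    have a2 := sum_le_card_nsmul B (fun i => d i + 1) q fun i hi => (mem_filter.1 (hB hi)).2
    rw [sum_add_distrib, ← card_eq_sum_ones, smul_eq_mul, mul_comm] at a2
    omega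
  · have a1 := d2 B hB
    have a2 := card_nsmul_le_sum (X \ B) (fun i => d i) q fun i hi => by
      by_contra c
      exact (mem_sdiff.1 hi).2 (hT (mem_filter.2 ⟨(mem_sdiff.1 hi).1, not_le.1 c⟩))
    rw [← sum_sdiff hB] at d1
    rw [← card_sdiff_add_card_eq_card hB, mul_add]
    rw [smul_eq_mul, mul_comm] at a2
    omega

variable {q r b : ℕ}

theorem low (hm : 0 < m) (h : Sys C univ n k) (hk : k + r = q * n) (hb : b + r = n)
    {X : Finset (Fin m)} (hX : n ≤ X.card) (c : rb C X < b) : q * X.card ≤ (C X).card + r := by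
  obtain ⟨T, t1, t2, t3⟩ := light q hm h X
  rcases le_total T.card n with d | d
  · obtain ⟨B, b1, b2, b3⟩ := exists_subsuperset_card_eq t1 d hX
    have a1 := t3 B b2 b1
    have a2 := h.big B (subset_univ _) b3
    rw [b3] at a1
    omega
  · obtain ⟨B, b1, b2⟩ := exists_subset_card_eq d
    have a1 := t2 B b1
    have a2 := h.big B (subset_univ _) b2
    rw [b2] at a1
    omega

theorem growth (hn : 1 ≤ n) (h : Sys C univ n k) (hk : k + r = q * n) (hb : b + r = n)
    {X : Finset (Fin m)} (hX : 2 * n ≤ X.card) :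
    (b : ℝ) * (q * X.card - (C X).card) ≤ b * r + r * rb C X := by
  have hm : 0 < m := by
    have := card_le_univ X
    rw [Fintype.card_fin] at this
    omega
  have hk' : (k : ℝ) + r = q * n := by exact_mod_cast hk
  have hb' : (b : ℝ) + r = n := by exact_mod_cast hb
  have p1 : (0 : ℝ) ≤ b := Nat.cast_nonneg _
  have p2 : (0 : ℝ) ≤ r := Nat.cast_nonneg _
  have p3 : (0 : ℝ) ≤ rb C X := Nat.cast_nonneg _
  have p4 : (1 : ℝ) ≤ n := by exact_mod_cast hn
  rcases lt_or_ge (rb C X) b with c | c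
  · have a1 : (q * X.card : ℝ) ≤ (C X).card + r := by
      exact_mod_cast low hm h hk hb (by omega) c
    nlinarith [mul_nonneg p2 p3]
  have c' : (b : ℝ) ≤ rb C X := by exact_mod_cast c
  obtain ⟨T, t1, t2, t3⟩ := light q hm h X
  rcases le_total T.card (2 * n) with d | d
  · obtain ⟨B, b1, b2, b3⟩ := exists_subsuperset_card_eq t1 d hX
    have a1 : (q * X.card + (C B).card : ℝ) ≤ (C X).card + q * B.card := by
      exact_mod_cast t3 B b2 b1
    have a2 : (k * B.card : ℝ) ≤ n * (C B).card := by exact_mod_cast ekr h hn b3.ge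
    rw [b3] at a1 a2
    push_cast at a1 a2
    have a3 : 2 * (k : ℝ) ≤ (C B).card := le_of_mul_le_mul_left (a := (n : ℝ)) (by linarith) (by linarith)
    have a4 : (q * X.card - (C X).card : ℝ) ≤ 2 * r := by linarith
    nlinarith [mul_le_mul_of_nonneg_left a4 p1, mul_le_mul_of_nonneg_left c' p2]
  · have a1 : (q * X.card + (C T).card : ℝ) ≤ (C X).card + q * T.card := by
      exact_mod_cast t3 T t1 Subset.rfl
    have a2 : (k * T.card : ℝ) ≤ n * (C T).card := by exact_mod_cast ekr h hn d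
    have a3 : ((C T).card + T.card : ℝ) ≤ q * T.card + rb C X := by
      exact_mod_cast t2 T Subset.rfl
    have a4 : n * (q * X.card - (C X).card : ℝ) ≤ r * T.card := by nlinarith
    have a5 : (b : ℝ) * T.card ≤ n * rb C X := by nlinarith
    refine le_of_mul_le_mul_left (a := (n : ℝ)) ?_ (by linarith)
    nlinarith [mul_le_mul_of_nonneg_left a4 p1, mul_le_mul_of_nonneg_left a5 p2,
      mul_nonneg (mul_nonneg p1 p2) (zero_le_one.trans p4)]

theorem card_add [Fintype β] (h : Sys C univ n k) {X Y : Finset (Fin m)} (e : Disjoint X Y) :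
    (C X).card + (C Y).card ≤ Fintype.card β := by
  rw [← card_union_of_disjoint (h.disj _ _ e)]
  exact card_le_univ _

theorem band [Fintype β] (hm : 0 < m) (h : Sys C univ n k)
    (hk : k + r = q * n) (hb : b + r = n) (hN : Fintype.card β + 2 * r < q * m)
    {X : Finset (Fin m)} (h1 : n ≤ X.card) (h2 : X.card + n ≤ m) : b ≤ rb C X + rb C Xᶜ := by
  by_contra c
  have a0 := card_add_card_compl X
  rw [Fintype.card_fin] at a0
  have a1 := low hm h hk hb h1 (by omega)
  have a2 := low hm h hk hb (X := Xᶜ) (by omega) (by omega)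
  have a3 := card_add h (disjoint_compl_right (a := X))
  rw [← a0, mul_add] at hN
  omega

end Pool.Agent.P.MP_a66f6f_co.Pos
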